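import Mathlib
import Pool.Agent.H50.W.Plates
import Pool.Agent.H41.W.Loc

set_option autoImplicit false
open Finset

/-! # Route W, interface between W-C and W-E: the junction box and the junction bound `JB`

Class RW: slit (chain of plates) from the left, natural cells to the right of the tip `0`. Lengths in
cells, the lattice scale is `n = 2 h` tiles per cell. `H` = half height = macroscopic unit. The ceiling
is a staircase going up to the right, the floor is its mirror image, every step has height one cell and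
one convex corner (`N → E` on the ceiling, `W → N` on the floor): these corners are the marks. -/

namespace Pool.Agent.H6.W

open Pool.Agent.H75.Perc hiding WL CT hh PB
open Pool.Agent.H75.TwoArm Pool.Agent.H75.Four Pool.Agent.H33.Q1
open Pool.Agent.Q1.M4 (Cell)
open Pool.Agent.H58.W Pool.Agent.H50.W Pool.Agent.H41.W

/-- cells of the rectangle `[a, b) × [c, d)` -/
noncomputable def RC (a b c d : ℤ) : Finset Cell := Ico a b ×ˢ Ico c d

/-- Chain of plates of length `M` to the left of the tip `(x0, 0)`: the plate `i` has the cells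
`x0 - (i+1) M ≤ x < x0 - i M`, `-(τ + i) ≤ y < τ + i`. -/
def chn (x0 : ℤ) (M τ : ℕ) (c : Cell) : Option ℕ :=
  if c.1 < x0 then
    (let i := ((x0 - c.1 - 1) / M).toNat
     if -((τ : ℤ) + i) ≤ c.2 ∧ c.2 < (τ : ℤ) + i then some i else none)
  else none

/-- **The junction box**: `[-X, X) × [-H, H)` and `K` steps, the step `i` of the ceiling is the row
`H + i` from the abscissa `st i` to the right wall. `m` = number of plates of the chunk `P`. -/
structure JBox where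
  H : ℕ
  X : ℕ
  K : ℕ
  st : ℕ → ℤ
  M : ℕ
  τ : ℕ
  m : ℕ

namespace JBox

variable (b : JBox)

/-- cells of the box -/
noncomputable def Q : Finset Cell :=
  RC (-b.X) b.X (-b.H) b.H ∪ (range b.K).biUnion fun i =>
    RC (b.st i) b.X (b.H + i) (b.H + i + 1) ∪ RC (b.st i) b.X (-b.H - i - 1) (-b.H - i)

/-- labels of the box -/
noncomputable def B (h : ℕ) : Finset (ℤ × ℤ) := TL b.Q (2 * (h : ℤ))

/-- cells of the chunk `P` = plates `i < m` -/
noncomputable def Pc : Finset Cell :=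
  (range b.m).biUnion fun i =>
    RC (-((i + 1) * b.M : ℤ)) (-(i * b.M : ℤ)) (-((b.τ : ℤ) + i)) ((b.τ : ℤ) + i)

/-- labels of the chunk `P` -/
noncomputable def Pl (h : ℕ) : Finset (ℤ × ℤ) := TL b.Pc (2 * (h : ℤ))

/-- **Admissible boxes**, fine of order `δ`, with the chunk of relative length `σ`. -/
structure Ok (δ σ : ℝ) : Prop where
  H0 : 0 < b.H
  M0 : 0 < b.M
  τ0 : 0 < b.τ
  /-- the slit reaches the left wall at the end of a plate -/
  dvd : b.M ∣ b.X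
  st_mono : ∀ i, i + 1 < b.K → b.st i < b.st (i + 1)
  st_lo : ∀ i < b.K, -(b.X : ℤ) < b.st i ∧ b.st i < b.X
  /-- length of the chunk -/
  len : (b.m * b.M : ℝ) = σ * b.H
  /-- plates are short -/
  M_le : (b.M : ℝ) ≤ δ * b.H
  /-- the chain is thin: half thickness at most `1 / 64` of the length of a plate (51) -/
  τ_le : 64 * ((b.τ : ℝ) + b.X / b.M) ≤ b.M
  /-- total height of the steps -/
  K_le : (b.K : ℝ) ≤ δ * b.H
  /-- the box is long -/
  X_ge : (b.H : ℝ) ≤ δ * b.X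
  /-- the corners are dense in `|x| ≤ H / δ` -/
  dense : ∀ x : ℤ, δ * |(x : ℝ)| ≤ b.H → ∃ i < b.K, x ≤ b.st i ∧ (b.st i : ℝ) < x + δ * b.H

/-- clockwise boundary coordinate from the foot of the slit `(-X, 0)`, of a boundary point of the tile
frame: up the left wall, along the ceiling to the right, down the right wall, along the floor -/
def pos (n : ℤ) (p : ℤ × ℤ) : ℤ :=
  let X : ℤ := b.X * n
  let T : ℤ := (b.H + b.K) * n
  if p.1 = X then 2 * X + T + (T - p.2)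
  else if 0 ≤ p.2 then p.1 + p.2 + X
  else 2 * X + 3 * T + (X - p.1) + (p.2 + T)

/-- coordinate of a mark: `(true, i)` = corner of the step `i` of the ceiling, `(false, i)` floor -/
def mark (n : ℤ) (c : Bool × ℕ) : ℤ :=
  if c.1 then (b.st c.2 + b.H + c.2 + 1 + b.X) * n
  else (2 * b.X + 3 * (b.H + b.K)) * n + (b.X - b.st c.2) * n + (b.K - c.2 - 1) * n

/-- The windows `0 ≤ t < 4 L g`, clockwise: ceiling `t < 2 L g`, window of the abscissas
`[j H / g, (j+1) H / g)`, `j = t - L g`; floor `j = 3 L g - 1 - t`. -/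
def InW (L g : ℕ) (t : ℕ) (c : Bool × ℕ) : Prop :=
  c.2 < b.K ∧
  ((c.1 = true ∧ t < 2 * L * g ∧ ((t : ℤ) - L * g) * b.H ≤ g * b.st c.2 ∧
      g * b.st c.2 < ((t : ℤ) - L * g + 1) * b.H) ∨
   (c.1 = false ∧ 2 * L * g ≤ t ∧ t < 4 * L * g ∧ (3 * L * g - 1 - (t : ℤ)) * b.H ≤ g * b.st c.2 ∧
      g * b.st c.2 < (3 * L * g - (t : ℤ)) * b.H))

/-- Connection of the arcs `[p1, p2]`, `[p3, p4]` (`w = true`) or `[p2, p3]`, `[p4, p1]` (`w = false`)
inside the box; `p1 < p2 < p3 < p4`. -/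
def Cr (h : ℕ) (w : Bool) (p1 p2 p3 p4 : ℤ) (ω : Finset (ℤ × ℤ)) : Prop :=
  ∃ x y, Tc (b.B h) x ∧ Ni (b.B h) x ∧ Tc (b.B h) y ∧ Ni (b.B h) y ∧
    (if w then (p1 ≤ b.pos (2 * h) (tv x) ∧ b.pos (2 * h) (tv x) ≤ p2) ∧
        (p3 ≤ b.pos (2 * h) (tv y) ∧ b.pos (2 * h) (tv y) ≤ p4)
      else (p2 ≤ b.pos (2 * h) (tv x) ∧ b.pos (2 * h) (tv x) ≤ p3) ∧
        (p4 ≤ b.pos (2 * h) (tv y) ∨ b.pos (2 * h) (tv y) ≤ p1)) ∧
    Co (ω ∩ b.B h) x y

/-- The solid chunk `P` is pivotal for the marks `c1 .. c4`. -/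
def Piv (h : ℕ) (w : Bool) (c1 c2 c3 c4 : Bool × ℕ) (ω : Finset (ℤ × ℤ)) : Prop :=
  b.Cr h w (b.mark (2 * h) c1) (b.mark (2 * h) c2) (b.mark (2 * h) c3) (b.mark (2 * h) c4)
      (ω ∪ b.Pl h) ∧
    ¬ b.Cr h w (b.mark (2 * h) c1) (b.mark (2 * h) c2) (b.mark (2 * h) c3) (b.mark (2 * h) c4)
      (ω \ b.Pl h)

/-- `P` is pivotal for all choices of marks in four windows. -/
def AllPiv (h : ℕ) (L g : ℕ) (w : Bool) (t1 t2 t3 t4 : ℕ) (ω : Finset (ℤ × ℤ)) : Prop :=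
  ∀ c1 c2 c3 c4 : Bool × ℕ, b.InW L g t1 c1 → b.InW L g t2 c2 → b.InW L g t3 c3 → b.InW L g t4 c4 →
    b.Piv h w c1 c2 c3 c4 ω

/-- probability in the junction world: natural cells, one fair coin per plate -/
noncomputable def PJ (h : ℕ) (A : Finset (ℤ × ℤ) → Prop) : ℝ :=
  PB (b.B h) (bk (2 * (h : ℤ)) (chn 0 b.M b.τ)) A

end JBox

/-- **(JB), the junction bound** = output of W-C, input of W-E. `1 + c` is universal, `C` depends only on
the windows; `σ` = relative length of the chunk. -/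
def JB (c : ℝ) : Prop :=
  ∀ L g : ℕ, 0 < L → 0 < g → ∃ C : ℝ, ∀ σ : ℝ, 0 < σ → σ ≤ 1 → ∀ ε > (0 : ℝ), ∃ δ > (0 : ℝ),
    ∀ b : JBox, b.Ok δ σ → ∀ (w : Bool) (t1 t2 t3 t4 : ℕ), t1 + 2 ≤ t2 → t2 + 2 ≤ t3 →
      t3 + 2 ≤ t4 → t4 < 4 * L * g →
      ∃ h0 : ℕ, ∀ h : ℕ, h0 ≤ h → b.PJ h (b.AllPiv h L g w t1 t2 t3 t4) ≤ C * σ ^ (1 + c) + ε

/-! ### One-arm bounds through fine chains = output of W-D (51), input of W-E -/

/-- open arm from distance `≤ r1` to distance `≥ r2` (cells) of the origin -/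
def ArmO (n : ℤ) (r1 r2 : ℕ) (ω : Finset (ℤ × ℤ)) : Prop :=
  ∃ u v, Co ω u v ∧ (|(tv u).1| ≤ r1 * n ∧ |(tv u).2| ≤ r1 * n) ∧
    (r2 * n ≤ |(tv v).1| ∨ r2 * n ≤ |(tv v).2|)

/-- dual arm, in the labels `F` -/
def ArmD (F : Finset (ℤ × ℤ)) (n : ℤ) (r1 r2 : ℕ) (ω : Finset (ℤ × ℤ)) : Prop :=
  ∃ u v, Co (du F ω) u v ∧ (|(tv u).1| ≤ r1 * n ∧ |(tv u).2| ≤ r1 * n) ∧
    (r2 * n ≤ |(tv v).1| ∨ r2 * n ≤ |(tv v).2|)

/-- **(RS)**: arms around the tip of a chain (`x0 = 0`, every annulus is crossed once) or around an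
interior point (`x0 ≥ r2`, crossed twice). -/
def RS (C0 : ℕ) (C c : ℝ) : Prop :=
  ∀ (R M τ : ℕ) (x0 : ℤ), 0 < M → 0 < τ → (M : ℤ) ∣ x0 → 0 ≤ x0 → x0 ≤ R →
    64 * ((τ : ℝ) + 2 * R / M) ≤ M → ∀ r1 r2 : ℕ, C0 * M ≤ r1 → r1 ≤ r2 → r2 ≤ R → (x0 = 0 ∨ r2 ≤ x0) →
      ∃ h0 : ℕ, ∀ h : ℕ, h0 ≤ h →
        PB (TL (RC (-R) R (-R) R) (2 * h)) (bk (2 * (h : ℤ)) (chn x0 M τ)) (ArmO (2 * h) r1 r2) ≤
          C * ((r1 : ℝ) / r2) ^ c ∧
        PB (TL (RC (-R) R (-R) R) (2 * h)) (bk (2 * (h : ℤ)) (chn x0 M τ))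
          (ArmD (TL (RC (-R) R (-R) R) (2 * h)) (2 * h) r1 r2) ≤ C * ((r1 : ℝ) / r2) ^ c

end Pool.Agent.H6.W
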