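import Mathlib
import Pool.Agent.H58.W.NearS
import Pool.Agent.H98.W.EndTop
import Pool.Agent.H13.W.Top

set_option autoImplicit false
open Finset

/-! # Route W, group W-E: natural = plates

`NPt S G` : for every error there is a number of chunks `N1` such that the crossing probability of the
natural world and of the world with the fine plates on the cut sides `G` differ by at most the error, for
`m` (plates in a chunk), `M'` (cells in a plate), `h` (mesh) large, in this order. -/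

namespace Pool.Agent.H6.W

open Pool.Agent.H75.Perc hiding WL CT hh PB
open Pool.Agent.H33.Q1 Pool.Agent.Q1.M4 Pool.Agent.H21.FM
open Pool.Agent.H58.W Pool.Agent.H50.W Pool.Agent.H98.W
open Pool.Agent.Q1.M4 (Cell)

/-- **Natural = plates** for the shape `S` and the cut sides `G`. -/
def NPt (S : Shape) (G : Finset Cell) : Prop :=
  ∀ b : ℤ, (∀ c ∈ G, c.1 < b) → ∀ ε > (0 : ℝ), ∃ N1 : ℕ, 0 < N1 ∧ ∃ m0 : ℕ, ∀ m ≥ m0,
    ∃ M0 : ℕ, ∀ M' ≥ M0, ∃ h0 : ℕ, ∀ h ≥ h0, ∀ hM : 0 < (N1 * m) * M',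
      |qn S (N1 * m * M' * h) - qpl (rf S (N1 * m * M') hM) h (plV G b (N1 * m) M')| ≤ ε

/-- **Output of W-E** (from the output `LocB` of E6 and `RS` of E10). -/
theorem npt_of {C0 : ℕ} {C c : ℝ} (hRS : RS C0 C c) (hc : 0 < c) (hL : LocB) (S : Shape)
    (G : Finset Cell) (hG : ChG S G) : NPt S G := fun b hb _ hε =>
  np S G b hb (endSt hRS hc S G b hb hG) (nearSt_of_locB hL S G b hb hG.ins) hε

/-- Statement of E6. -/
def E6 : Prop := ∀ (c : ℝ), 0 < c → JB c → ∀ (C0 : ℕ) (C c' : ℝ), 0 < c' → RS C0 C c' → LocB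

/-- Statement of E10. -/
def E10 : Prop := ∃ (C0 : ℕ) (C c : ℝ), 0 < c ∧ RS C0 C c

/-- **W-E as one implication**: `JB` and the named statements give natural = plates. -/
theorem wE_top (h6 : E6) (h10 : E10) {c : ℝ} (hc : 0 < c) (hJB : JB c) (S : Shape)
    (G : Finset Cell) (hG : ChG S G) : NPt S G := by
  obtain ⟨C0, C, c', hc', hRS⟩ := h10
  exact npt_of hRS hc' (h6 c hc hJB C0 C c' hc' hRS) S G hG

/-- the chords of 13's `chG` satisfy 98's `ChG` -/
theorem chG_ok (S : Shape) : ChG S (Pool.Agent.H13.W.chG S.P.Q) := by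
  have mem : ∀ c : Cell, c ∈ Pool.Agent.H13.W.chG S.P.Q ↔ c ∈ S.P.Q ∧ (c.1, c.2 - 1) ∈ S.P.Q ∧
      ∃ b : ℤ, c.1 < b ∧ (∀ x, c.1 ≤ x → x < b → (x, c.2) ∈ S.P.Q ∧ (x, c.2 - 1) ∈ S.P.Q) ∧
        ¬ ((b, c.2) ∈ S.P.Q ↔ (b, c.2 - 1) ∈ S.P.Q) := by
    intro c
    classical
    unfold Pool.Agent.H13.W.chG
    rw [mem_filter]
  refine ⟨fun c hc => ?_, fun i y h h' => ?_, fun i y h h' => ?_⟩
  · obtain ⟨h1, h2, -⟩ := (mem c).1 hc
    exact ⟨h1, h2⟩
  · by_contra hcon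
    push Not at hcon
    obtain ⟨h1, h2, b, hb, h3, h4⟩ := (mem _).1 h
    refine h' ((mem _).2 ⟨hcon.1, hcon.2, b, by simp only at hb ⊢; omega, fun x hx hx' => ?_, h4⟩)
    simp only at hx hx' h3 ⊢
    rcases eq_or_lt_of_le hx with h5 | h5
    · rw [← h5]; exact hcon
    · exact h3 x (by omega) hx'
  · by_contra hcon
    push Not at hcon
    obtain ⟨h1, h2, b, hb, h3, h4⟩ := (mem _).1 h
    simp only at hb h3 h4
    have hb' : i + 1 < b := by
      rcases lt_or_eq_of_le (show i + 1 ≤ b by omega) with h5 | h5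
      · exact h5
      · exfalso
        apply h4
        rw [← h5]
        exact ⟨fun _ => hcon.2, fun _ => hcon.1⟩
    refine h' ((mem _).2 ⟨hcon.1, hcon.2, b, hb', fun x hx hx' => h3 x ?_ hx', h4⟩)
    simp only at hx
    omega

/-- **Output of W-E for W-D** -/
theorem stNP_of {C0 : ℕ} {C c : ℝ} (hRS : RS C0 C c) (hc : 0 < c) (hL : LocB) :
    Pool.Agent.H13.W.StNP := by
  intro S _
  obtain ⟨b, hb⟩ : ∃ b : ℤ, ∀ c ∈ Pool.Agent.H13.W.chG S.P.Q, c.1 < b := by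
    obtain ⟨b, hb⟩ := ((Pool.Agent.H13.W.chG S.P.Q).image Prod.fst).bddAbove
    exact ⟨b + 1, fun c hc => by
      have := hb (mem_coe.2 (mem_image_of_mem Prod.fst hc))
      omega⟩
  exact ⟨b, hb, endSt hRS hc S _ b hb (chG_ok S), nearSt_of_locB hL S _ b hb (chG_ok S).ins⟩

/-- W-E as one implication, in the form of 13's `StNP` -/
theorem wE_stNP (h6 : E6) (h10 : E10) {c : ℝ} (hc : 0 < c) (hJB : JB c) :
    Pool.Agent.H13.W.StNP := by
  obtain ⟨C0, C, c', hc', hRS⟩ := h10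
  exact stNP_of hRS hc' (h6 c hc hJB C0 C c' hc' hRS)

end Pool.Agent.H6.W
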