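import Mathlib
import Pool.Agent.H6.W.Top
import Pool.Agent.H24.W.Land
import Pool.Agent.H41.W.LandBox
import Pool.Agent.H67.W.RSfin

set_option autoImplicit false
open Finset

/-! # Route W, group W-E, final form: the crossing formula in the junction box gives natural = plates -/

namespace Pool.Agent.H6.W

open Pool.Agent.H75.Perc hiding WL CT hh PB
open Pool.Agent.H33.Q1 Pool.Agent.Q1.M4 Pool.Agent.H21.FM
open Pool.Agent.H58.W Pool.Agent.H50.W Pool.Agent.H98.W
open Pool.Agent.Q1.M4 (Cell)

/-- **E3**: the landing lemma in 24's strong form -/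
theorem landingS : Pool.Agent.H24.W.LandingS := by
  intro b δ σ L g h ω hb hσ hg hδg hδL hL hh hω hA
  have hδL' : δ ≤ 1 / (4 * L) := by
    refine hδL.trans (one_div_le_one_div_of_le (by positivity) ?_)
    push_cast
    have : (0 : ℝ) ≤ L := by positivity
    linarith
  rcases Pool.Agent.H41.W.landing_box hb hσ hg (by omega) hδg hδL' hh hω hA with
    ⟨w, t1, t2, t3, t4, h1, h2, h3, h4, h5⟩ | h1 | h1 | h1 | h1
  · exact Or.inl ⟨w, t1, t2, t3, t4, ⟨h1, h2, h3, h4⟩, h5⟩
  · exact Or.inr (Or.inl h1)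
  · exact Or.inr (Or.inr (Or.inl h1))
  · exact Or.inr (Or.inr (Or.inr (Or.inl h1)))
  · exact Or.inr (Or.inr (Or.inr (Or.inr h1)))

/-- **E6** -/
theorem e6 : E6 := Pool.Agent.H24.W.e6 (Pool.Agent.H24.W.landing_of_strong landingS)

/-- **E10** -/
theorem e10 : E10 := Pool.Agent.H67.W.rs_E10

/-- **LocB** (fine plates make no difference inside the chunk), from the crossing formula in the
junction box only -/
theorem locB_of_JB {c : ℝ} (hc : 0 < c) (hJB : JB c) : LocB := by
  obtain ⟨C0, C, c', hc', hRS⟩ := e10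
  exact e6 c hc hJB C0 C c' hc' hRS

/-- **W-E**: natural = plates for every shape and every admissible set of cut sides, from `JB` -/
theorem wE {c : ℝ} (hc : 0 < c) (hJB : JB c) (S : Shape) (G : Finset Cell) (hG : ChG S G) :
    NPt S G := wE_top e6 e10 hc hJB S G hG

/-- **W-E**, in the form consumed by W-D (13's `StNP`) -/
theorem stNP {c : ℝ} (hc : 0 < c) (hJB : JB c) : Pool.Agent.H13.W.StNP := wE_stNP e6 e10 hc hJB

end Pool.Agent.H6.W
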